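import Pool.Agent.H131.V1.Wind

/-! The winding index of a walk in a half-plane whose last vertex can escape to infinity without a
step in the direction opposite to the inner normal (no step to the left from an odd vertex). -/

set_option autoImplicit false

namespace H131.V2

open H978R2.Hex H131.V1 Complex

/-- direction index of a step which does not go to the left from an odd vertex: the direction is
`60 d - 30` degrees -/
def dir (p q : V) : ℤ :=
  if (p.1 + p.2) % 2 = 0 then (if q.1 = p.1 + 1 then 0 else if q.1 = p.1 then 2 else -2)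
  else (if q.1 = p.1 + 1 then 1 else -1)

/-- the step does not go to the left from an odd vertex -/
def NL (p q : V) : Prop := (p.1 + p.2) % 2 = 1 → q ≠ (p.1 - 1, p.2)

theorem dir_abs (p q : V) : |dir p q| ≤ 2 := by
  unfold dir
  split_ifs <;> norm_num

theorem turn_dir {x y z : V} (h1 : Adj x y) (h2 : Adj y z) (h3 : x ≠ z) (n1 : NL x y)
    (n2 : NL y z) : turn x y z = dir y z - dir x y := by
  have n1' : (x.1 + x.2) % 2 = 1 → ¬ (y.1 = x.1 - 1 ∧ y.2 = x.2) := by
    intro h e
    exact n1 h (Prod.ext e.1 e.2)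
  have n2' : (y.1 + y.2) % 2 = 1 → ¬ (z.1 = y.1 - 1 ∧ z.2 = y.2) := by
    intro h e
    exact n2 h (Prod.ext e.1 e.2)
  have a1 := h1
  have a2 := h2
  rw [adj_iff] at a1 a2
  unfold turn dir
  rcases adj_delta h1 with ⟨p1, p2, h⟩ | ⟨p1, p2, h⟩ <;>
  rcases adj_delta h2 with ⟨p3, p4, h'⟩ | ⟨p3, p4, h'⟩ <;>
  first
  | (exfalso; omega)
  | (rcases h with ⟨e1, e2⟩ | ⟨e1, e2⟩ | ⟨e1, e2⟩ <;>
     rcases h' with ⟨e3, e4⟩ | ⟨e3, e4⟩ | ⟨e3, e4⟩ <;>
     first
     | (exfalso; exact h3 (v_ext (by omega) (by omega)))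
     | (exfalso; omega)
     | (rw [e1, e2, e3, e4]; split_ifs <;> omega))

/-- the list `G` is a way to escape from `z`, avoiding `A`; it ends with a half-line to the right -/
def Esc : List V → V → List V → Prop
  | A, z, [] => ∀ w ∈ A, w ∉ Ray 0 z
  | A, z, g :: G => Adj z g ∧ NL z g ∧ g ∉ z :: A ∧ Esc (z :: A) g G

/-- the first step of the way -/
def fst (z : V) : List V → V
  | [] => (z.1 + 1, z.2)
  | g :: _ => g

/-- a walk in the half-plane, as a reversed list `z :: v :: (K ++ [(0, 0)])` -/
structure Sw (z v : V) (K : List V) : Prop where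
  chain : (z :: v :: (K ++ [(0, 0)])).IsChain (fun x y => Adj y x)
  nodup : (z :: v :: (K ++ [(0, 0)])).Nodup
  pos : ∀ w ∈ z :: v :: K, 1 ≤ w.1 - w.2
  last : (v :: K).getLast (by simp) = (1, 0)

theorem fst_props {A : List V} {z : V} {G : List V} (h : Esc A z G) :
    Adj z (fst z G) ∧ NL z (fst z G) ∧ fst z G ∉ z :: A := by
  cases G with
  | nil =>
    refine ⟨?_, ?_, ?_⟩
    · show Adj z (z.1 + 1, z.2)
      rw [adj_iff]
      simp only
      omega
    · intro _ e
      have : z.1 + 1 = z.1 - 1 := congrArg Prod.fst e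
      omega
    · intro hm
      rcases List.mem_cons.1 hm with e | hm
      · have : z.1 + 1 = z.1 := congrArg Prod.fst e
        omega
      · apply h _ hm
        show (z.1 + 1, z.2) ∈ Ray 0 z
        rw [ray_zero]
        simp
  | cons g G => exact ⟨h.1, h.2.1, h.2.2.1⟩

theorem W_esc : ∀ (G : List V) (z v : V) (K : List V), Sw z v K →
    Esc (v :: (K ++ [(0, 0)])) z G →
    W (z :: v :: (K ++ [(0, 0)])) = dir z (fst z G) - turn v z (fst z G)
  | [], z, v, K, S, E => by
    set g : V := (z.1 + 1, z.2) with hg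
    have hgr : g ∈ Ray 0 z := by
      rw [ray_zero]
      rw [hg]
      simp
    obtain ⟨p1, p2, p3⟩ := fst_props E
    change Adj z g at p1
    change g ∉ z :: v :: (K ++ [(0, 0)]) at p3
    have hO : ∀ w, (fun w => w ∈ z :: v :: K) w → 1 ≤ w.1 - w.2 := S.pos
    have D : LandD (fun w => w ∈ z :: v :: K) g z (v :: K) := by
      refine ⟨p1, S.chain, S.nodup, fun w hw => hw, ?_, ?_, ?_⟩
      · rw [List.getLast_cons (by simp)]
        exact S.last
      · intro hm
        apply p3
        rcases List.mem_cons.1 hm with e | hm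
        · rw [e]; exact List.mem_cons_self
        · apply List.mem_cons_of_mem
          exact List.mem_append_left [(0, 0)] hm
      · intro h
        simp at h
    obtain ⟨f1, f2, f3⟩ := wformula hO D
    have hS : ∀ w ∈ z :: v :: (K ++ [(0, 0)]), w ≠ g ∧ w ∉ Ray 0 g := by
      intro w hw
      refine ⟨fun e => p3 (e ▸ hw), fun hr => ?_⟩
      have hr' := ray_next hgr hr
      rcases List.mem_cons.1 hw with e | hw'
      · rw [e, ray_zero] at hr'
        omega
      · exact E w hw' hr'
    have h1 := wind_rowL S.chain hS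
    have e1 : (z :: v :: (K ++ [(0, 0)])).getLast (by simp) = (0, 0) :=
      List.getLast_append_singleton (z :: v :: K)
    rw [e1, pos_zero, sub_zero] at h1
    have e2 : z :: ((v :: K) ++ [(0, 0)]) = z :: v :: (K ++ [(0, 0)]) := rfl
    rw [e2, h1] at f3
    set y := kap * H978R2.Hex.pos g with hy
    have hyp : H978R2.Hex.pos g = kab * y := by
      rw [hy, ← mul_assoc, kab_kap, one_mul]
    have hpz : H978R2.Hex.pos g ≠ 0 := by
      have := pos_sub_ne f1
      rwa [pos_zero, sub_zero] at this
    have hy0 : y ≠ 0 := mul_ne_zero kap_ne hpz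
    have hyre : 0 ≤ y.re := by
      have := re_kap_nonneg (p := g) (q := (0, 0)) (by simpa using f2) (by simp)
      rwa [pos_zero, sub_zero] at this
    have h3 := arg_kab_mul hy0 hyre
    rw [← hyp] at h3
    rw [h3] at f3
    have hWg : W (g :: z :: v :: (K ++ [(0, 0)])) = dir z g := by
      rcases Int.emod_two_eq_zero_or_one (z.1 + z.2) with hpar | hpar
      · have hd : dir z g = 0 := by
          unfold dir
          rw [if_pos hpar, hg]
          simp
        rw [hd]
        apply W_of
        have h4 : arg (H978R2.Hex.pos g - H978R2.Hex.pos z) = -(Real.pi / 6) := by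
          apply arg_step_minus
          · rw [hg]; simp
          · rw [hg]; unfold ht; simp only; omega
        rw [f3, h4]
        push_cast
        ring
      · have hd : dir z g = 1 := by
          unfold dir
          rw [if_neg (by omega), hg]
          simp
        rw [hd]
        apply W_of
        have h4 : arg (H978R2.Hex.pos g - H978R2.Hex.pos z) = Real.pi / 6 := by
          apply arg_step_plus
          · rw [hg]; simp
          · rw [hg]; unfold ht; simp only; omega
        rw [f3, h4]
        push_cast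
        ring
    have e3 : W (g :: z :: v :: (K ++ [(0, 0)])) = turn v z g + W (z :: v :: (K ++ [(0, 0)])) := rfl
    rw [e3] at hWg
    show W (z :: v :: (K ++ [(0, 0)])) = dir z g - turn v z g
    omega
  | g :: G, z, v, K, S, E => by
    obtain ⟨q1, q2, q3, q4⟩ := E
    have hcz : 1 ≤ z.1 - z.2 := S.pos z List.mem_cons_self
    have hcg : 1 ≤ g.1 - g.2 := by
      have a1 := q1
      rw [adj_iff] at a1
      rcases Int.emod_two_eq_zero_or_one (z.1 + z.2) with hpar | hpar
      · omega
      · have : ¬ (g.1 = z.1 - 1 ∧ g.2 = z.2) := fun e => q2 hpar (Prod.ext e.1 e.2)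
        omega
    have S' : Sw g z (v :: K) := by
      refine ⟨?_, ?_, ?_, ?_⟩
      · exact List.isChain_cons_cons.mpr ⟨q1, S.chain⟩
      · exact List.nodup_cons.mpr ⟨q3, S.nodup⟩
      · intro w hw
        rcases List.mem_cons.1 hw with e | hw
        · rw [e]; exact hcg
        · exact S.pos w hw
      · rw [List.getLast_cons (by simp)]
        exact S.last
    have ih := W_esc G g z (v :: K) S' q4
    obtain ⟨r1, r2, r3⟩ := fst_props q4
    have hfz : z ≠ fst g G := by
      intro e
      apply r3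
      rw [← e]
      simp
    have h5 := turn_dir q1 r1 hfz q2 r2
    have e3 : W (g :: z :: ((v :: K) ++ [(0, 0)])) = turn v z g + W (z :: v :: (K ++ [(0, 0)])) := rfl
    rw [e3] at ih
    show W (z :: v :: (K ++ [(0, 0)])) = dir z g - turn v z g
    omega

theorem W_esc_le {G : List V} {z v : V} {K : List V} (S : Sw z v K)
    (E : Esc (v :: (K ++ [(0, 0)])) z G) : |W (z :: v :: (K ++ [(0, 0)]))| ≤ 3 := by
  rw [W_esc G z v K S E]
  obtain ⟨p1, p2, p3⟩ := fst_props E
  have h1 := dir_abs z (fst z G)
  have hvz : Adj v z := by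
    have := S.chain
    exact (List.isChain_cons_cons.mp this).1
  have h2 : v ≠ fst z G := by
    intro e
    apply p3
    rw [← e]
    simp
  rcases turn_pm hvz p1 h2 with h | h
  · rw [h]
    rw [abs_le] at h1 ⊢
    omega
  · rw [h]
    rw [abs_le] at h1 ⊢
    omega

/-- an infinite self-avoiding path without steps to the left from an odd vertex -/
structure EP (Γ : ℕ → V) : Prop where
  inj : Function.Injective Γ
  adj : ∀ i, Adj (Γ i) (Γ (i + 1))
  nl : ∀ i, NL (Γ i) (Γ (i + 1))

theorem esc_of {Γ : ℕ → V} (H : EP Γ) : ∀ (n i : ℕ) (A : List V),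
    (∀ j, i < j → j ≤ i + n → Γ j ∉ A) → (∀ w ∈ A, w ∉ Ray 0 (Γ (i + n))) →
    (∀ j, i ≤ j → j < i + n → Γ j ∉ Ray 0 (Γ (i + n))) →
    Esc A (Γ i) ((List.range' (i + 1) n).map Γ)
  | 0, i, A, _, h2, _ => h2
  | n + 1, i, A, h1, h2, h3 => by
    rw [List.range'_succ, List.map_cons]
    refine ⟨H.adj i, H.nl i, ?_, ?_⟩
    · intro hm
      rcases List.mem_cons.1 hm with e | hm
      · have := H.inj e
        omega
      · exact h1 (i + 1) (by omega) (by omega) hm
    · have e : i + 1 + n = i + (n + 1) := by omega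
      apply esc_of H n (i + 1) (Γ i :: A)
      · intro j hj1 hj2 hm
        rcases List.mem_cons.1 hm with e | hm
        · have := H.inj e
          omega
        · exact h1 j (by omega) (by omega) hm
      · rw [e]
        intro w hw
        rcases List.mem_cons.1 hw with e' | hw
        · rw [e']
          exact h3 i (le_refl _) (by omega)
        · exact h2 w hw
      · rw [e]
        intro j hj1 hj2
        exact h3 j (by omega) hj2

theorem EP.mono {Γ : ℕ → V} (H : EP Γ) (i : ℕ) : ∀ n : ℕ,
    (((Γ (i + n)).1 + (Γ (i + n)).2) % 2 = 0 → (Γ i).1 - (Γ i).2 ≤ (Γ (i + n)).1 - (Γ (i + n)).2) ∧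
      (Γ i).1 - (Γ i).2 - 1 ≤ (Γ (i + n)).1 - (Γ (i + n)).2 := by
  intro n
  induction n with
  | zero => simp only [Nat.add_zero]; omega
  | succ n ih =>
    have h1 := H.adj (i + n)
    have h2 := H.nl (i + n)
    have e : i + (n + 1) = i + n + 1 := by omega
    rw [e]
    rw [adj_iff] at h1
    rcases Int.emod_two_eq_zero_or_one ((Γ (i + n)).1 + (Γ (i + n)).2) with hpar | hpar
    · omega
    · have : ¬ ((Γ (i + n + 1)).1 = (Γ (i + n)).1 - 1 ∧ (Γ (i + n + 1)).2 = (Γ (i + n)).2) :=
        fun e => h2 hpar (Prod.ext e.1 e.2)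
      omega

/-- the path leaves every quadrant `w.1 ≤ N`, `-N ≤ w.2` -/
theorem EP.leaves {Γ : ℕ → V} (H : EP Γ) (N : ℤ) (i : ℕ) :
    ∃ n : ℕ, ¬ ((Γ (i + n)).1 ≤ N ∧ -N ≤ (Γ (i + n)).2) := by
  by_contra hcon
  push Not at hcon
  set m : ℤ := (Γ i).1 - (Γ i).2 - 1 with hm
  have hbox : ∀ n, Γ (i + n) ∈ (Finset.Icc (m - N) N ×ˢ Finset.Icc (-N) (N - m) : Finset V) := by
    intro n
    obtain ⟨h1, h2⟩ := hcon n
    have h3 := H.mono i n
    rw [Finset.mem_product, Finset.mem_Icc, Finset.mem_Icc]
    refine ⟨⟨?_, ?_⟩, ?_, ?_⟩ <;> omega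
  have hinf : (Set.range fun n => Γ (i + n)).Infinite :=
    Set.infinite_range_of_injective (fun a b h => by
      have := H.inj h
      omega)
  apply hinf
  refine Set.Finite.subset (Finset.finite_toSet
    (Finset.Icc (m - N) N ×ˢ Finset.Icc (-N) (N - m) : Finset V)) ?_
  rintro w ⟨n, rfl⟩
  exact Finset.mem_coe.mpr (hbox n)

end H131.V2
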