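import Pool.Agent.H131.V1.Mass
import Pool.Agent.H131.V1.Arm
import Pool.Agent.H131.V2.Esc

/-! The critical mass of the arms for general ways of escape. -/

set_option autoImplicit false

namespace H131.V2

open H978R2.Hex H131.V1 Complex

/-- mass bound for a finite domain in the half-plane, all exits of which have winding index at
most 3 in absolute value -/
theorem mass_le' {Om : V → Prop} [DecidablePred Om] (h1 : Om (1, 0))
    (hO : ∀ w, Om w → 1 ≤ w.1 - w.2) (S : Finset V) (hS : ∀ v, Om v → v ∈ S)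
    (hland : ∀ z v K, LandD Om z v K → |W (z :: v :: (K ++ [(0, 0)]))| ≤ 3)
    (F : Finset (List V)) (hF : ∀ l ∈ F, Val Om l ∧ ¬ Om (l.headD (0, 0))) :
    ∑ l ∈ F, (mu0⁻¹) ^ (l.length - 2) ≤ c0 := by
  classical
  have hmu : 0 < mu0⁻¹ := inv_pos.mpr mu0_pos
  have hOs : ∀ v, Om v → ¬ Slit v := by
    intro v hv hs
    have := hO v hv
    unfold Slit at hs
    omega
  set N := S.card + F.sup List.length with hN
  have hid := ident Om h1 hOs N
  rw [free_empty S hS N (by omega), Finset.sum_empty] at hid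
  have hmuN : (mu0 : ℂ) ^ N ≠ 0 := pow_ne_zero _ (by exact_mod_cast mu0_pos.ne')
  have h2 := (mul_eq_zero.mp hid.symm).resolve_left hmuN
  rw [sub_eq_zero] at h2
  have h3 := congrArg Complex.re h2.symm
  rw [Complex.re_sum, Complex.one_re] at h3
  have hterm : ∀ m, (∑ l ∈ (P Om m).filter (fun l => ¬ Om (l.headD (0, 0))),
      exp ((W l : ℂ) * (Real.pi / 8) * I) * ((mu0 : ℂ)⁻¹) ^ m).re =
      ∑ l ∈ (P Om m).filter (fun l => ¬ Om (l.headD (0, 0))),
        Real.cos ((W l : ℝ) * (Real.pi / 8)) * (mu0⁻¹) ^ m := by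
    intro m
    rw [Complex.re_sum]
    refine Finset.sum_congr rfl fun l _ => ?_
    have e1 : ((mu0 : ℂ)⁻¹) ^ m = (((mu0⁻¹) ^ m : ℝ) : ℂ) := by push_cast; rfl
    have e2 : (W l : ℂ) * (Real.pi / 8) * I = (((W l : ℝ) * (Real.pi / 8) : ℝ) : ℂ) * I := by
      push_cast; rfl
    rw [e1, e2, Complex.re_mul_ofReal, Complex.exp_ofReal_mul_I_re]
  simp only [hterm] at h3
  have hcl : ∀ m, ∀ l ∈ (P Om m).filter (fun l => ¬ Om (l.headD (0, 0))), |W l| ≤ 3 := by
    intro m l hl
    rw [Finset.mem_filter] at hl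
    obtain ⟨z, v, K, rfl, D⟩ := classify h1 hl.1 hl.2
    exact hland z v K D
  have h4 : Real.cos (3 * (Real.pi / 8)) * (∑ m ∈ Finset.range (N + 1),
      ∑ l ∈ (P Om m).filter (fun l => ¬ Om (l.headD (0, 0))), (mu0⁻¹) ^ m) ≤ 1 := by
    rw [← h3, Finset.mul_sum]
    refine Finset.sum_le_sum fun m _ => ?_
    rw [Finset.mul_sum]
    refine Finset.sum_le_sum fun l hl => ?_
    exact mul_le_mul_of_nonneg_right (cos_ge (hcl m l hl)) (by positivity)
  have h5 : ∑ l ∈ F, (mu0⁻¹) ^ (l.length - 2) ≤ ∑ m ∈ Finset.range (N + 1),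
      ∑ l ∈ (P Om m).filter (fun l => ¬ Om (l.headD (0, 0))), (mu0⁻¹) ^ m := by
    rw [← Finset.sum_fiberwise_of_maps_to (s := F) (t := Finset.range (N + 1))
      (g := fun l => l.length - 2)]
    · refine Finset.sum_le_sum fun m _ => ?_
      have hsub : F.filter (fun l => l.length - 2 = m) ⊆
          (P Om m).filter (fun l => ¬ Om (l.headD (0, 0))) := by
        intro l hl
        rw [Finset.mem_filter] at hl ⊢
        obtain ⟨hl1, hl2⟩ := hl
        obtain ⟨hl3, hl4⟩ := hF l hl1
        refine ⟨mem_P.2 ⟨hl3, ?_⟩, hl4⟩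
        match l, hl3, hl2 with
        | a :: b :: t, _, hl2 =>
          simp only [List.length_cons] at hl2 ⊢
          omega
      refine le_trans (le_of_eq ?_) (Finset.sum_le_sum_of_subset_of_nonneg hsub
        (fun _ _ _ => by positivity))
      refine Finset.sum_congr rfl fun l hl => ?_
      rw [(Finset.mem_filter.1 hl).2]
    · intro l hl
      have : l.length ≤ F.sup List.length := Finset.le_sup (f := List.length) hl
      rw [Finset.mem_range]
      omega
  refine le_trans h5 ?_
  unfold c0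
  rw [mul_comm] at h4
  have h6 := (le_div_iff₀ cos_pos).mpr h4
  rwa [one_div] at h6

/-- the domain of an arm -/
def AD (s : V) (N : ℤ) (E : Set V) (w : V) : Prop :=
  1 + (s.1 - s.2) ≤ w.1 - w.2 ∧ w.1 ≤ N ∧ -N ≤ w.2 ∧ w ∉ E

/-- a landing walk in the domain of an arm, as a reversed list -/
def Arm (s : V) (N : ℤ) (E : Set V) (l : List V) : Prop :=
  ∃ z t, l = z :: t ∧ [((s.1 + 1, s.2) : V), s] <:+ l ∧ l.IsChain (fun x y => Adj y x) ∧
    t.Nodup ∧ (∀ v ∈ t.dropLast, AD s N E v) ∧ (∀ a b r, t = a :: b :: r → z ≠ b) ∧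
    ¬ AD s N E z

/-- the arms of the escape set `E` have bounded critical mass -/
def ArmBound (E : Set V) : Prop :=
  ∀ (s : V), (s.1 + s.2) % 2 = 0 → ∀ N : ℤ, AD s N E (s.1 + 1, s.2) → ∀ H : Finset (List V),
    (∀ l ∈ H, Arm s N E l) → ∑ l ∈ H, (mu0⁻¹) ^ (l.length - 2) ≤ c0

/-- reduction to the frame `s = 0` -/
theorem armBound_of {E : Set V}
    (hE : ∀ (s : V), (s.1 + s.2) % 2 = 0 → ∀ N : ℤ, AD s N E (s.1 + 1, s.2) → ∀ z v K,
      LandD (fun w => AD s N E (w + s)) z v K → 1 ≤ z.1 - z.2 → z + s ∈ E →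
      |W (z :: v :: (K ++ [(0, 0)]))| ≤ 3) : ArmBound E := by
  intro s hs N hq H hH
  classical
  set Om : V → Prop := fun w => AD s N E (w + s) with hOm
  have hinj : Function.Injective (fun l : List V => l.map (fun w => w - s)) :=
    List.map_injective_iff.mpr (fun a b h => sub_left_injective h)
  have e0 : ∑ l ∈ H, (mu0⁻¹) ^ (l.length - 2) =
      ∑ l ∈ H.image (fun l : List V => l.map (fun w => w - s)), (mu0⁻¹) ^ (l.length - 2) := by
    rw [Finset.sum_image (fun a _ b _ h => hinj h)]
    refine Finset.sum_congr rfl fun l _ => ?_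
    rw [List.length_map]
  rw [e0]
  have hO : ∀ w, Om w → 1 ≤ w.1 - w.2 := by
    intro w hw
    obtain ⟨h1, -⟩ := hw
    simp only [Prod.fst_add, Prod.snd_add] at h1
    omega
  refine mass_le' (Om := Om) ?_ hO
    ((Finset.Icc (-N - s.2) (N - s.1)) ×ˢ (Finset.Icc (-N - s.2) (N - s.1))) ?_ ?_ _ ?_
  · show AD s N E ((1, 0) + s)
    have : ((1, 0) : V) + s = (s.1 + 1, s.2) := by
      apply Prod.ext
      · simp only [Prod.fst_add]; ring
      · simp only [Prod.snd_add]; ring
    rw [this]
    exact hq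
  · intro w hw
    obtain ⟨h1, h2, h3, -⟩ := hw
    simp only [Prod.fst_add, Prod.snd_add] at h1 h2 h3
    rw [Finset.mem_product, Finset.mem_Icc, Finset.mem_Icc]
    refine ⟨⟨?_, ?_⟩, ?_, ?_⟩ <;> omega
  · intro z v K D
    obtain ⟨hz0, hcz, -⟩ := wformula hO D
    by_cases h0 : z.1 - z.2 = 0
    · exact W_le_three hO D (Or.inl h0)
    by_cases hr : z + s ∈ E
    · exact hE s hs N hq z v K D (by omega) hr
    · refine W_le_three hO D (Or.inr ⟨0, by decide, by decide, fun w hw hwr => ?_⟩)
      rw [ray_zero] at hwr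
      obtain ⟨h1, h2, h3, -⟩ := hw
      apply D.hz
      simp only [Prod.fst_add, Prod.snd_add] at h1 h2 h3
      refine ⟨?_, ?_, ?_, hr⟩ <;> simp only [Prod.fst_add, Prod.snd_add] <;> omega
  · intro l hl
    rw [Finset.mem_image] at hl
    obtain ⟨l', hl', rfl⟩ := hl
    obtain ⟨z, t, rfl, h1, h2, h3, h4, h5, h6⟩ := hH l' hl'
    constructor
    · simp only [List.map_cons]
      rw [val_iff]
      refine ⟨?_, ?_, ?_, ?_, ?_⟩
      · have h7 := List.IsSuffix.map (fun w => w - s) h1
        have e1 : [((s.1 + 1, s.2) : V), s].map (fun w => w - s) = [((1, 0) : V), (0, 0)] := by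
          simp only [List.map_cons, List.map_nil, List.cons.injEq, and_true]
          constructor
          · apply Prod.ext
            · simp only [Prod.fst_sub]; ring
            · simp only [Prod.snd_sub]; ring
          · exact sub_self s
        rw [e1] at h7
        exact h7
      · show ((z :: t).map (fun w => w - s)).IsChain (fun x y => Adj y x)
        rw [List.isChain_map]
        exact h2.imp (fun a b hab => adj_sub hs hab)
      · exact (List.nodup_map_iff (fun a b h => sub_left_injective h)).mpr h3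
      · intro v hv
        rw [← List.map_dropLast, List.mem_map] at hv
        obtain ⟨u, hu, rfl⟩ := hv
        show AD s N E (u - s + s)
        rw [sub_add_cancel]
        exact h4 u hu
      · intro a b r hab hzb
        match t, hab with
        | a' :: b' :: r', hab =>
          simp only [List.map_cons, List.cons.injEq] at hab
          apply h5 a' b' r' rfl
          rw [← hab.2.1] at hzb
          exact sub_left_injective hzb
    · simp only [List.map_cons, List.headD_cons]
      show ¬ AD s N E (z - s + s)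
      rw [sub_add_cancel]
      exact h6

theorem nl_sub {p q s : V} (hs : (s.1 + s.2) % 2 = 0) (h : NL p q) : NL (p - s) (q - s) := by
  intro hp e
  simp only [Prod.fst_sub, Prod.snd_sub] at hp e
  apply h (by omega)
  have e1 : q.1 - s.1 = p.1 - s.1 - 1 := by
    have := congrArg Prod.fst e
    simpa using this
  have e2 : q.2 - s.2 = p.2 - s.2 := by
    have := congrArg Prod.snd e
    simpa using this
  apply Prod.ext
  · simp only; omega
  · simp only; omega

/-- the vertices of a path, without the first one -/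
def ES (Γ : ℕ → V) : Set V := {w | ∃ i, 1 ≤ i ∧ Γ i = w}

/-- the escape set of a path has bounded arms -/
theorem armBound_path {Γ : ℕ → V} (H : EP Γ) : ArmBound (ES Γ) := by
  apply armBound_of
  intro s hs N hq z v K D hcz hzE
  obtain ⟨i, hi, hzi⟩ := hzE
  have hO : ∀ w, (fun w => AD s N (ES Γ) (w + s)) w → 1 ≤ w.1 - w.2 := by
    intro w hw
    obtain ⟨h1, -⟩ := hw
    simp only [Prod.fst_add, Prod.snd_add] at h1
    omega
  obtain ⟨hz0, -, -⟩ := wformula hO D
  set Γ' : ℕ → V := fun j => Γ j - s with hΓ'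
  have H' : EP Γ' := ⟨fun a b h => H.inj (sub_left_injective h), fun j => adj_sub hs (H.adj j),
    fun j => nl_sub hs (H.nl j)⟩
  have hz' : z = Γ' i := by
    rw [hΓ']
    simp only
    rw [hzi, add_sub_cancel_right]
  classical
  have hex := H.leaves N i
  set n := Nat.find hex with hn
  have hn1 := Nat.find_spec hex
  have hn2 : ∀ m, m < n → (Γ (i + m)).1 ≤ N ∧ -N ≤ (Γ (i + m)).2 := by
    intro m hm
    have := Nat.find_min hex hm
    rwa [not_not] at this
  rw [← hn] at hn1
  have hray : ∀ u : V, u.1 ≤ N → -N ≤ u.2 → u - s ∉ Ray 0 (Γ' (i + n)) := by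
    intro u hu1 hu2 hu3
    rw [ray_zero] at hu3
    rw [hΓ'] at hu3
    simp only [Prod.fst_sub, Prod.snd_sub] at hu3
    apply hn1
    constructor <;> omega
  have hmem : ∀ w ∈ v :: (K ++ [(0, 0)]), (w + s).1 ≤ N ∧ -N ≤ (w + s).2 ∧
      ∀ j, 1 ≤ j → Γ j ≠ w + s ∨ w = (0, 0) := by
    intro w hw
    have hw' : w ∈ (v :: K) ++ [(0, 0)] := hw
    rcases List.mem_append.1 hw' with h | h
    · obtain ⟨g1, g2, g3, g4⟩ := D.h5 w h
      exact ⟨g2, g3, fun j hj => Or.inl (fun e => g4 ⟨j, hj, e⟩)⟩
    · have h0 := List.mem_singleton.1 h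
      obtain ⟨g1, g2, g3, g4⟩ := hq
      simp only at g2 g3
      refine ⟨?_, ?_, fun j _ => Or.inr h0⟩
      · rw [h0]; simp only [Prod.fst_add]; omega
      · rw [h0]; simp only [Prod.snd_add]; omega
  have hcG : ∀ j, i ≤ j → 0 ≤ (Γ j).1 - (Γ j).2 - (s.1 - s.2) ∧
      (((Γ j).1 + (Γ j).2) % 2 = 0 → 1 ≤ (Γ j).1 - (Γ j).2 - (s.1 - s.2)) := by
    intro j hj
    have h1 := H.mono i (j - i)
    have e : i + (j - i) = j := by omega
    rw [e] at h1
    have h2 : (Γ i).1 - (Γ i).2 - (s.1 - s.2) = z.1 - z.2 := by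
      rw [hzi]
      simp only [Prod.fst_add, Prod.snd_add]
      ring
    constructor
    · omega
    · intro h3
      have := h1.1 h3
      omega
  have E : Esc (v :: (K ++ [(0, 0)])) (Γ' i) ((List.range' (i + 1) n).map Γ') := by
    apply esc_of H' n i
    · intro j hj1 hj2 hm
      obtain ⟨-, -, h3⟩ := hmem _ hm
      rcases h3 j (by omega) with h | h
      · apply h
        rw [hΓ']
        simp
      · have h4 := hcG j (by omega)
        have e1 : (Γ j).1 - s.1 = 0 := by
          have := congrArg Prod.fst h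
          rw [hΓ'] at this
          simpa using this
        have e2 : (Γ j).2 - s.2 = 0 := by
          have := congrArg Prod.snd h
          rw [hΓ'] at this
          simpa using this
        have h5 : ((Γ j).1 + (Γ j).2) % 2 = 0 := by omega
        have := h4.2 h5
        omega
    · intro w hw hr
      obtain ⟨h1, h2, -⟩ := hmem w hw
      apply hray (w + s) h1 h2
      rwa [add_sub_cancel_right]
    · intro j hj1 hj2
      obtain ⟨h1, h2⟩ := hn2 (j - i) (by omega)
      have e : i + (j - i) = j := by omega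
      rw [e] at h1 h2
      exact hray (Γ j) h1 h2
  rw [← hz'] at E
  refine W_esc_le ?_ E
  refine ⟨?_, ?_, ?_, D.h6⟩
  · exact List.isChain_cons_cons.mpr ⟨D.h2, D.h3⟩
  · refine List.nodup_cons.mpr ⟨?_, D.h4⟩
    intro hm
    have : z ∈ (v :: K) ++ [(0, 0)] := hm
    rcases List.mem_append.1 this with h | h
    · exact D.hz (D.h5 z h)
    · exact hz0 (List.mem_singleton.1 h)
  · intro w hw
    rcases List.mem_cons.1 hw with h | h
    · rw [h]; exact hcz
    · exact hO w (D.h5 w h)

end H131.V2
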