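import Pool.Agent.H131.V1.Core
import Pool.Agent.H131.V2.Arm

/-! Critical two-point function between two accessible points of a finite domain: cutting at the
lowest vertex in the direction of an edge. -/

set_option autoImplicit false

namespace H131.V2

open H978R2.Hex H131.V1

/-- escape data for the vertex `y` of `D` -/
structure ED (D : Finset V) (y g : V) (E : Set V) : Prop where
  adj : Adj y g
  nl : NL y g
  mem : g ∈ E
  disj : ∀ w ∈ D, w ∉ E
  bd : ArmBound E

/-- the arms -/
theorem arm_of (D : Finset V) {N : ℤ} (hN : ∀ w ∈ D, w.1 ≤ N ∧ -N ≤ w.2) {s : V}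
    (hs : (s.1 + s.2) % 2 = 0) {y g : V} {E : Set V} (hE : ED D y g E)
    {t : List V} (h1 : t.head? = some y)
    (h2 : t.getLast? = some (s.1 + 1, s.2)) (h3 : t.Nodup)
    (h4 : t.IsChain (fun p q => Adj q p)) (h5 : ∀ w ∈ t, w ∈ D ∧ 1 + (s.1 - s.2) ≤ w.1 - w.2) :
    Arm s N E (g :: (t ++ [s])) := by
  have hqs : Adj s (s.1 + 1, s.2) := by
    rw [adj_iff]
    simp only
    omega
  have hyD : g ∉ D := fun h => hE.disj _ h hE.mem
  refine ⟨g, t ++ [s], rfl, ?_, ?_, ?_, ?_, ?_, ?_⟩
  · obtain ⟨t', ht'⟩ := List.getLast?_eq_some_iff.mp h2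
    rw [ht']
    refine ⟨g :: t', ?_⟩
    simp
  · obtain ⟨t', ht'⟩ := List.head?_eq_some_iff.mp h1
    have hc : (t ++ [s]).IsChain (fun x y => Adj y x) := by
      refine List.isChain_append.mpr ⟨h4, List.isChain_singleton _, ?_⟩
      intro a ha b hb
      rw [h2, Option.mem_some_iff] at ha
      have hb' : b = s := by simpa using hb.symm
      rw [← ha, hb']
      exact hqs
    rw [ht', List.cons_append] at hc ⊢
    exact List.isChain_cons_cons.mpr ⟨hE.adj, hc⟩
  · rw [List.nodup_append]
    refine ⟨h3, List.nodup_singleton _, ?_⟩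
    intro a ha b hb e
    rw [List.mem_singleton.1 hb] at e
    have := (h5 a ha).2
    rw [e] at this
    omega
  · intro v hv
    rw [List.dropLast_concat] at hv
    obtain ⟨g1, g2⟩ := h5 v hv
    exact ⟨g2, (hN v g1).1, (hN v g1).2, hE.disj v g1⟩
  · intro a b r hab e
    obtain ⟨t', ht'⟩ := List.head?_eq_some_iff.mp h1
    cases t' with
    | nil =>
      rw [ht'] at hab h2
      simp only [List.cons_append, List.nil_append, List.cons.injEq] at hab
      simp only [List.getLast?_singleton, Option.some.injEq] at h2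
      refine hE.nl ?_ ?_
      · rw [h2]; simp only; omega
      · rw [e, ← hab.2.1, h2]
        apply Prod.ext
        · simp only; ring
        · rfl
    | cons b' t'' =>
      rw [ht'] at hab
      simp only [List.cons_append, List.cons.injEq] at hab
      apply hyD
      rw [e, ← hab.2.1]
      apply (h5 b' _).1
      rw [ht']
      simp
  · intro h
    exact h.2.2.2 hE.mem

/-- the walks whose lowest vertex is the odd vertex `p` -/
theorem odd_le (D : Finset V) {x y gx gy : V} {Ex Ey : Set V} (hEx : ED D x gx Ex)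
    (hEy : ED D y gy Ey) {p : V} (hp : (p.1 + p.2) % 2 = 1) (hpD : p ∈ D) (G : Finset (List V))
    (hG : ∀ l ∈ G, Saw D x y l ∧ p ∈ l ∧ ∀ w ∈ l, p.1 - p.2 ≤ w.1 - w.2) :
    ∑ l ∈ G, (mu0⁻¹) ^ (l.length - 1) ≤ 24 := by
  classical
  obtain ⟨N, hN⟩ := exists_box D
  have hmu : 0 < mu0⁻¹ := inv_pos.mpr mu0_pos
  set s : V := (p.1 - 1, p.2) with hsdef
  have hs : (s.1 + s.2) % 2 = 0 := by
    rw [hsdef]; simp only; omega
  have hps : p = (s.1 + 1, s.2) := by
    rw [hsdef]; apply Prod.ext
    · simp only; ring
    · rfl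
  have hsc : 1 + (s.1 - s.2) = p.1 - p.2 := by
    rw [hsdef]; simp only; ring
  have hdec : ∀ l ∈ G, ∃ l1 l2, l = l1 ++ p :: l2 := fun l hl => List.append_of_mem (hG l hl).2.1
  choose! f1 f2 hf using hdec
  set A : List V → List V := fun l => gy :: ((p :: f2 l).reverse ++ [s]) with hA
  set B : List V → List V := fun l => gx :: ((f1 l ++ [p]) ++ [s]) with hB
  have hArmA : ∀ l ∈ G, Arm s N Ey (A l) := by
    intro l hl
    obtain ⟨⟨g1, g2, g3, g4, g5⟩, -, g6⟩ := hG l hl
    have hl' := hf l hl
    rw [hl'] at g1 g2 g3 g4 g5 g6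
    have g3' := List.nodup_append.mp g3
    have g4' := List.isChain_append.mp g4
    refine arm_of D hN hs hEy ?_ ?_ ?_ ?_ ?_
    · rw [List.head?_reverse]
      rw [List.getLast?_append_of_ne_nil _ (by simp)] at g2
      exact g2
    · rw [List.getLast?_reverse, ← hps]
      rfl
    · rw [List.nodup_reverse]
      exact g3'.2.1
    · rw [List.isChain_reverse]
      exact g4'.2.1
    · intro w hw
      have hw' : w ∈ f1 l ++ p :: f2 l := List.mem_append_right _ (List.mem_reverse.mp hw)
      refine ⟨g5 w hw', ?_⟩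
      rw [hsc]
      exact g6 w hw'
  have hArmB : ∀ l ∈ G, Arm s N Ex (B l) := by
    intro l hl
    obtain ⟨⟨g1, g2, g3, g4, g5⟩, -, g6⟩ := hG l hl
    have hl' := hf l hl
    have hl'' : l = (f1 l ++ [p]) ++ f2 l := by
      rw [List.append_assoc, List.singleton_append]
      exact hl'
    rw [hl''] at g1 g3 g4 g5 g6
    have g3' := List.nodup_append.mp g3
    have g4' := List.isChain_append.mp g4
    refine arm_of D hN hs hEx ?_ ?_ ?_ ?_ ?_
    · rw [List.head?_append_of_ne_nil _ (by simp)] at g1
      exact g1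
    · rw [← hps, List.getLast?_concat]
    · exact g3'.1
    · exact g4'.1.imp (fun a b hab => adj_symm hab)
    · intro w hw
      have hw' : w ∈ (f1 l ++ [p]) ++ f2 l := List.mem_append_left _ hw
      refine ⟨g5 w hw', ?_⟩
      rw [hsc]
      exact g6 w hw'
  have hpq : ∀ (E : Set V), (∀ w ∈ D, w ∉ E) → AD s N E (s.1 + 1, s.2) := by
    intro E hu
    rw [← hps]
    refine ⟨by rw [hsc], (hN p hpD).1, (hN p hpD).2, hu p hpD⟩
  have hSA : ∑ a ∈ G.image A, (mu0⁻¹) ^ (a.length - 2) ≤ c0 := by
    apply hEy.bd s hs N (hpq Ey hEy.disj)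
    intro a ha
    obtain ⟨l, hl, rfl⟩ := Finset.mem_image.mp ha
    exact hArmA l hl
  have hSB : ∑ a ∈ G.image B, (mu0⁻¹) ^ (a.length - 2) ≤ c0 := by
    apply hEx.bd s hs N (hpq Ex hEx.disj)
    intro a ha
    obtain ⟨l, hl, rfl⟩ := Finset.mem_image.mp ha
    exact hArmB l hl
  have e1 : ∀ l ∈ G, (mu0⁻¹) ^ (l.length - 1) =
      mu0 ^ 2 * ((mu0⁻¹) ^ ((A l).length - 2) * (mu0⁻¹) ^ ((B l).length - 2)) := by
    intro l hl
    have h1 : l.length - 1 = (f1 l).length + (f2 l).length := by
      conv_lhs => rw [hf l hl]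
      rw [List.length_append, List.length_cons]
      omega
    have h2 : (A l).length - 2 = (f2 l).length + 1 := by
      rw [hA]
      simp
    have h3 : (B l).length - 2 = (f1 l).length + 1 := by
      rw [hB]
      simp
    rw [h1, h2, h3, ← pow_add]
    have h4 : (f2 l).length + 1 + ((f1 l).length + 1) = 2 + ((f1 l).length + (f2 l).length) := by
      omega
    rw [h4, pow_add (mu0⁻¹) 2, ← mul_assoc, ← mul_pow, mul_inv_cancel₀ mu0_pos.ne', one_pow, one_mul]
  rw [Finset.sum_congr rfl e1, ← Finset.mul_sum]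
  have hinj : Set.InjOn (fun l => (A l, B l)) (G : Set (List V)) := by
    intro l hl l' hl' h
    simp only [Prod.mk.injEq] at h
    obtain ⟨h1, h2⟩ := h
    have h3 : f2 l = f2 l' := by
      rw [hA] at h1
      simp only [List.cons.injEq, true_and, List.reverse_cons, List.append_assoc] at h1
      have := List.append_cancel_right h1
      exact List.reverse_injective this
    have h4 : f1 l = f1 l' := by
      rw [hB] at h2
      simp only [List.cons.injEq, true_and, List.append_assoc] at h2
      exact List.append_cancel_right h2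
    rw [hf l hl, hf l' hl', h3, h4]
  have e2 : ∑ l ∈ G, (mu0⁻¹) ^ ((A l).length - 2) * (mu0⁻¹) ^ ((B l).length - 2) ≤ c0 * c0 := by
    calc ∑ l ∈ G, (mu0⁻¹) ^ ((A l).length - 2) * (mu0⁻¹) ^ ((B l).length - 2)
        = ∑ q ∈ G.image (fun l => (A l, B l)),
            (mu0⁻¹) ^ (q.1.length - 2) * (mu0⁻¹) ^ (q.2.length - 2) := by
          rw [Finset.sum_image hinj]
      _ ≤ ∑ q ∈ (G.image A) ×ˢ (G.image B),
            (mu0⁻¹) ^ (q.1.length - 2) * (mu0⁻¹) ^ (q.2.length - 2) := by
          apply Finset.sum_le_sum_of_subset_of_nonneg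
          · intro q hq
            obtain ⟨l, hl, rfl⟩ := Finset.mem_image.mp hq
            exact Finset.mem_product.mpr
              ⟨Finset.mem_image_of_mem A hl, Finset.mem_image_of_mem B hl⟩
          · intro q _ _
            positivity
      _ = (∑ a ∈ G.image A, (mu0⁻¹) ^ (a.length - 2)) *
            ∑ b ∈ G.image B, (mu0⁻¹) ^ (b.length - 2) := by
          rw [Finset.sum_product, Finset.sum_mul_sum]
      _ ≤ c0 * c0 := by
          apply mul_le_mul hSA hSB _ c0_pos.le
          exact Finset.sum_nonneg (fun _ _ => by positivity)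
  have hmu2 : mu0 ^ 2 = 2 + Real.sqrt 2 := by
    unfold mu0
    exact Real.sq_sqrt (by positivity)
  have h24 : mu0 ^ 2 * (c0 * c0) ≤ 24 := by
    rw [hmu2, c0_sq]
    have h2 : Real.sqrt 2 * Real.sqrt 2 = 2 := Real.mul_self_sqrt (by norm_num)
    have h3 : 0 ≤ Real.sqrt 2 := Real.sqrt_nonneg _
    nlinarith
  refine le_trans (mul_le_mul_of_nonneg_left e2 (by positivity)) h24

/-- the walks whose lowest vertex is the even starting point -/
theorem even_first (D : Finset V) {x y gy : V} (hxy : x ≠ y) {Ey : Set V}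
    (hEy : ED D y gy Ey) (hp : (x.1 + x.2) % 2 = 0) (G : Finset (List V))
    (hG : ∀ l ∈ G, Saw D x y l ∧ ∀ w ∈ l, x.1 - x.2 ≤ w.1 - w.2) :
    ∑ l ∈ G, (mu0⁻¹) ^ (l.length - 1) ≤ c0 := by
  classical
  rcases G.eq_empty_or_nonempty with rfl | hne
  · rw [Finset.sum_empty]
    exact c0_pos.le
  obtain ⟨N, hN⟩ := exists_box D
  have hmu : 0 < mu0⁻¹ := inv_pos.mpr mu0_pos
  have hmu1 : mu0⁻¹ ≤ 1 := by
    apply inv_le_one_of_one_le₀
    unfold mu0
    rw [Real.one_le_sqrt]
    have := Real.sqrt_nonneg 2
    linarith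
  -- structure of the walks
  have hst : ∀ l ∈ G, ∃ l2, l = x :: (x.1 + 1, x.2) :: l2 := by
    intro l hl
    obtain ⟨⟨g1, g2, g3, g4, g5⟩, g6⟩ := hG l hl
    obtain ⟨l', rfl⟩ := List.head?_eq_some_iff.mp g1
    cases l' with
    | nil =>
      exfalso
      apply hxy
      simpa using g2
    | cons b l2 =>
      have c1 := (List.isChain_cons_cons.mp g4).1
      have gb := g6 b (by simp)
      rw [adj_iff] at c1
      refine ⟨l2, ?_⟩
      have : b = (x.1 + 1, x.2) := by
        apply Prod.ext
        · simp only; omega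
        · simp only; omega
      rw [this]
  have hqAD : AD x N Ey (x.1 + 1, x.2) := by
    obtain ⟨l, hl⟩ := hne
    obtain ⟨l2, hl2⟩ := hst l hl
    have hD := (hG l hl).1.2.2.2.2 (x.1 + 1, x.2) (by rw [hl2]; simp)
    refine ⟨by simp only; omega, (hN _ hD).1, (hN _ hD).2, hEy.disj _ hD⟩
  have hint : ∀ l ∈ G, ∀ w ∈ l, w = x ∨ w = y ∨ 1 + (x.1 - x.2) ≤ w.1 - w.2 := by
    intro l hl w hw
    obtain ⟨g0, g6⟩ := hG l hl
    by_cases hc : 1 + (x.1 - x.2) ≤ w.1 - w.2
    · exact Or.inr (Or.inr hc)
    · have h1 := g6 w hw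
      have h2 : w.1 - w.2 = x.1 - x.2 := by omega
      rcases even_end g0 (p := w) (by omega) hw (fun u hu => by rw [h2]; exact g6 u hu) with h | h
      · exact Or.inl h
      · exact Or.inr (Or.inl h)
  by_cases hcy : 1 + (x.1 - x.2) ≤ y.1 - y.2
  · -- the other end point is inside
    have hArm : ∀ l ∈ G, Arm x N Ey (gy :: l.reverse) := by
      intro l hl
      obtain ⟨⟨g1, g2, g3, g4, g5⟩, g6⟩ := hG l hl
      obtain ⟨l2, hl2⟩ := hst l hl
      have hl3 : l.reverse = ((x.1 + 1, x.2) :: l2).reverse ++ [x] := by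
        rw [hl2, List.reverse_cons]
      rw [hl3]
      have g3' := g3
      have g4' := g4
      rw [hl2] at g3' g4'
      refine arm_of D hN hp hEy ?_ ?_ ?_ ?_ ?_
      · rw [List.head?_reverse]
        rw [hl2] at g2
        rw [List.getLast?_cons_cons] at g2
        exact g2
      · rw [List.getLast?_reverse]
        rfl
      · rw [List.nodup_reverse]
        exact (List.nodup_cons.mp g3').2
      · rw [List.isChain_reverse]
        exact (List.isChain_cons_cons.mp g4').2
      · intro w hw
        have hw1 : w ∈ (x.1 + 1, x.2) :: l2 := List.mem_reverse.mp hw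
        have hw' : w ∈ l := by
          rw [hl2]
          exact List.mem_cons_of_mem _ hw1
        refine ⟨g5 w hw', ?_⟩
        rcases hint l hl w hw' with h | h | h
        · exfalso
          rw [h] at hw1
          exact (List.nodup_cons.mp g3').1 hw1
        · rw [h]; exact hcy
        · exact h
    have hinj : Set.InjOn (fun l : List V => gy :: l.reverse) (G : Set (List V)) := by
      intro l _ l' _ h
      simp only [List.cons.injEq, true_and] at h
      exact List.reverse_injective h
    have h1 := hEy.bd x hp N hqAD (G.image (fun l : List V => gy :: l.reverse))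
      (by
        intro a ha
        obtain ⟨l, hl, rfl⟩ := Finset.mem_image.mp ha
        exact hArm l hl)
    rw [Finset.sum_image hinj] at h1
    refine le_trans (le_of_eq (Finset.sum_congr rfl fun l _ => ?_)) h1
    rw [List.length_cons, List.length_reverse]
    rfl
  · -- the other end point is on the bottom line
    have hArm : ∀ l ∈ G, Arm x N Ey l.reverse := by
      intro l hl
      obtain ⟨⟨g1, g2, g3, g4, g5⟩, g6⟩ := hG l hl
      obtain ⟨l2, hl2⟩ := hst l hl
      obtain ⟨t, ht⟩ := List.getLast?_eq_some_iff.mp g2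
      have hrev : l.reverse = y :: t.reverse := by
        rw [ht, List.reverse_append]
        rfl
      have hynd : y ∉ t := by
        rw [ht] at g3
        intro hyt
        exact (List.nodup_append.mp g3).2.2 y hyt y (by simp) rfl
      have hcl : l.reverse.IsChain (fun x y => Adj y x) := by
        rw [List.isChain_reverse]
        exact g4
      refine ⟨y, t.reverse, hrev, ?_, hcl, ?_, ?_, ?_, ?_⟩
      · rw [hl2]
        refine ⟨l2.reverse, ?_⟩
        simp
      · rw [List.nodup_reverse]
        rw [ht] at g3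
        exact (List.nodup_append.mp g3).1
      · intro v hv
        rw [List.dropLast_reverse, List.mem_reverse] at hv
        have hvt : v ∈ t := List.mem_of_mem_tail hv
        have hvl : v ∈ l := by
          rw [ht]
          exact List.mem_append_left _ hvt
        have hvD := g5 v hvl
        refine ⟨?_, (hN v hvD).1, (hN v hvD).2, hEy.disj v hvD⟩
        rcases hint l hl v hvl with h | h | h
        · exfalso
          cases t with
          | nil => simp at hv
          | cons c t' =>
            rw [hl2] at ht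
            rw [List.cons_append, List.cons.injEq] at ht
            have g3' := g3
            rw [hl2] at g3'
            apply (List.nodup_cons.mp g3').1
            rw [ht.2, ← h]
            exact List.mem_append_left _ hv
        · exfalso
          rw [h] at hvt
          exact hynd hvt
        · exact h
      · intro a b r hab e
        apply hynd
        rw [← List.mem_reverse, hab, e]
        simp
      · intro h
        exact hcy h.1
    have hinj : Set.InjOn (fun l : List V => l.reverse) (G : Set (List V)) := by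
      intro l _ l' _ h
      exact List.reverse_injective h
    have h1 := hEy.bd x hp N hqAD (G.image (fun l : List V => l.reverse))
      (by
        intro a ha
        obtain ⟨l, hl, rfl⟩ := Finset.mem_image.mp ha
        exact hArm l hl)
    rw [Finset.sum_image hinj] at h1
    refine le_trans (Finset.sum_le_sum fun l _ => ?_) h1
    rw [List.length_reverse]
    exact pow_le_pow_of_le_one hmu.le hmu1 (by omega)

/-- the walks with a given lowest vertex -/
theorem min_le (D : Finset V) {x y gx gy : V} {Ex Ey : Set V} (hEx : ED D x gx Ex)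
    (hEy : ED D y gy Ey) {p : V} (hpD : p ∈ D) (G : Finset (List V))
    (hG : ∀ l ∈ G, Saw D x y l ∧ p ∈ l ∧ ∀ w ∈ l, p.1 - p.2 ≤ w.1 - w.2) :
    ∑ l ∈ G, (mu0⁻¹) ^ (l.length - 1) ≤ 24 := by
  classical
  rcases Int.emod_two_eq_zero_or_one (p.1 + p.2) with hp | hp
  · rcases G.eq_empty_or_nonempty with rfl | ⟨l0, hl0⟩
    · rw [Finset.sum_empty]
      norm_num
    have hc3 := c0_le
    by_cases hxy : x = y
    · have hsub : ∀ l ∈ G, l = [x] := by
        intro l hl
        obtain ⟨⟨g1, g2, g3, g4, g5⟩, -⟩ := hG l hl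
        obtain ⟨l', rfl⟩ := List.head?_eq_some_iff.mp g1
        rcases List.eq_nil_or_concat l' with rfl | ⟨l'', a, rfl⟩
        · rfl
        · exfalso
          have : a = y := by
            rw [List.concat_eq_append, ← List.cons_append, List.getLast?_concat] at g2
            simpa using g2
          rw [this, ← hxy] at g3
          exact (List.nodup_cons.mp g3).1 (by simp)
      have hG1 : G ⊆ {[x]} := fun l hl => Finset.mem_singleton.mpr (hsub l hl)
      refine le_trans (Finset.sum_le_sum_of_subset_of_nonneg hG1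
        (fun l _ _ => pow_nonneg (inv_pos.mpr mu0_pos).le _)) ?_
      simp
    · rcases even_end (hG l0 hl0).1 hp (hG l0 hl0).2.1 (hG l0 hl0).2.2 with h | h
      · have h1 := even_first D hxy hEy (by rw [← h]; exact hp) G
          (fun l hl => ⟨(hG l hl).1, by rw [← h]; exact (hG l hl).2.2⟩)
        linarith
      · have hinj : Set.InjOn (fun l : List V => l.reverse) (G : Set (List V)) := by
          intro l _ l' _ h
          exact List.reverse_injective h
        have h1 := even_first D (Ne.symm hxy) hEx (by rw [← h]; exact hp)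
          (G.image (fun l : List V => l.reverse)) (by
            intro a ha
            obtain ⟨l, hl, rfl⟩ := Finset.mem_image.mp ha
            refine ⟨saw_reverse (hG l hl).1, fun w hw => ?_⟩
            rw [← h]
            exact (hG l hl).2.2 w (List.mem_reverse.mp hw))
        rw [Finset.sum_image hinj] at h1
        simp only [List.length_reverse] at h1
        linarith
  · exact odd_le D hEx hEy hp hpD G hG

/-- **Core estimate.** -/
theorem core (D : Finset V) {x y gx gy : V} {Ex Ey : Set V} (hEx : ED D x gx Ex)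
    (hEy : ED D y gy Ey)
    (G : Finset (List V)) (hG : ∀ l ∈ G, Saw D x y l) :
    ∑ l ∈ G, (mu0⁻¹) ^ (l.length - 1) ≤ 24 * D.card := by
  classical
  have hmu : 0 < mu0⁻¹ := inv_pos.mpr mu0_pos
  have h1 : ∀ l ∈ G, ∃ p ∈ D, p ∈ l ∧ ∀ w ∈ l, p.1 - p.2 ≤ w.1 - w.2 := by
    intro l hl
    obtain ⟨g1, g2, g3, g4, g5⟩ := hG l hl
    have hne : l.toFinset.Nonempty := by
      obtain ⟨l', rfl⟩ := List.head?_eq_some_iff.mp g1
      exact ⟨x, by simp⟩
    obtain ⟨p, hp, hmin⟩ := Finset.exists_min_image l.toFinset (fun w => w.1 - w.2) hne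
    rw [List.mem_toFinset] at hp
    exact ⟨p, g5 p hp, hp, fun w hw => hmin w (List.mem_toFinset.mpr hw)⟩
  choose! m hm1 hm2 hm3 using h1
  rw [← Finset.sum_fiberwise_of_maps_to (s := G) (t := D) (g := m) hm1]
  have h2 : ∀ p ∈ D, ∑ l ∈ G.filter (fun l => m l = p), (mu0⁻¹) ^ (l.length - 1) ≤ 24 := by
    intro p hp
    apply min_le D hEx hEy hp
    intro l hl
    rw [Finset.mem_filter] at hl
    obtain ⟨hl1, rfl⟩ := hl
    exact ⟨hG l hl1, hm2 l hl1, hm3 l hl1⟩
  refine le_trans (Finset.sum_le_sum h2) ?_
  rw [Finset.sum_const, nsmul_eq_mul, mul_comm]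

end H131.V2
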