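import Pool.Agent.H131.V2.Core
import Pool.Agent.H131.V1.Gen

/-! The core estimate for accessible points, all directions. -/

set_option autoImplicit false

namespace H131.V2

open H978R2.Hex H131.V1

/-- the step from `p` to `q` has the direction `60 j - 30` degrees -/
def Stp : Fin 6 → V → V → Prop
  | 0, p, q => (p.1 + p.2) % 2 = 0 ∧ q.1 = p.1 + 1 ∧ q.2 = p.2
  | 1, p, q => (p.1 + p.2) % 2 = 1 ∧ q.1 = p.1 + 1 ∧ q.2 = p.2
  | 2, p, q => (p.1 + p.2) % 2 = 0 ∧ q.1 = p.1 ∧ q.2 = p.2 + 1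
  | 3, p, q => (p.1 + p.2) % 2 = 1 ∧ q.1 = p.1 - 1 ∧ q.2 = p.2
  | 4, p, q => (p.1 + p.2) % 2 = 0 ∧ q.1 = p.1 - 1 ∧ q.2 = p.2
  | 5, p, q => (p.1 + p.2) % 2 = 1 ∧ q.1 = p.1 ∧ q.2 = p.2 - 1

theorem stp_R (j : Fin 6) (p q : V) (h : Stp (j + 2) (R p) (R q)) : Stp j p q := by
  obtain ⟨a, b⟩ := p
  obtain ⟨c, d⟩ := q
  fin_cases j
  · have h' : ((R (a, b)).1 + (R (a, b)).2) % 2 = 0 ∧ (R (c, d)).1 = (R (a, b)).1 ∧
      (R (c, d)).2 = (R (a, b)).2 + 1 := h
    show (a + b) % 2 = 0 ∧ c = a + 1 ∧ d = b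
    unfold R at h'
    simp only at h'
    omega
  · have h' : ((R (a, b)).1 + (R (a, b)).2) % 2 = 1 ∧ (R (c, d)).1 = (R (a, b)).1 - 1 ∧
      (R (c, d)).2 = (R (a, b)).2 := h
    show (a + b) % 2 = 1 ∧ c = a + 1 ∧ d = b
    unfold R at h'
    simp only at h'
    omega
  · have h' : ((R (a, b)).1 + (R (a, b)).2) % 2 = 0 ∧ (R (c, d)).1 = (R (a, b)).1 - 1 ∧
      (R (c, d)).2 = (R (a, b)).2 := h
    show (a + b) % 2 = 0 ∧ c = a ∧ d = b + 1
    unfold R at h'
    simp only at h'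
    omega
  · have h' : ((R (a, b)).1 + (R (a, b)).2) % 2 = 1 ∧ (R (c, d)).1 = (R (a, b)).1 ∧
      (R (c, d)).2 = (R (a, b)).2 - 1 := h
    show (a + b) % 2 = 1 ∧ c = a - 1 ∧ d = b
    unfold R at h'
    simp only at h'
    omega
  · have h' : ((R (a, b)).1 + (R (a, b)).2) % 2 = 0 ∧ (R (c, d)).1 = (R (a, b)).1 + 1 ∧
      (R (c, d)).2 = (R (a, b)).2 := h
    show (a + b) % 2 = 0 ∧ c = a - 1 ∧ d = b
    unfold R at h'
    simp only at h'
    omega
  · have h' : ((R (a, b)).1 + (R (a, b)).2) % 2 = 1 ∧ (R (c, d)).1 = (R (a, b)).1 + 1 ∧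
      (R (c, d)).2 = (R (a, b)).2 := h
    show (a + b) % 2 = 1 ∧ c = a ∧ d = b - 1
    unfold R at h'
    simp only at h'
    omega

theorem stp_J (j : Fin 6) (p q : V) (h : Stp (j + 3) (J p) (J q)) : Stp j p q := by
  obtain ⟨a, b⟩ := p
  obtain ⟨c, d⟩ := q
  fin_cases j
  · have h' : ((J (a, b)).1 + (J (a, b)).2) % 2 = 1 ∧ (J (c, d)).1 = (J (a, b)).1 - 1 ∧
      (J (c, d)).2 = (J (a, b)).2 := h
    show (a + b) % 2 = 0 ∧ c = a + 1 ∧ d = b
    unfold J at h'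
    simp only at h'
    omega
  · have h' : ((J (a, b)).1 + (J (a, b)).2) % 2 = 0 ∧ (J (c, d)).1 = (J (a, b)).1 - 1 ∧
      (J (c, d)).2 = (J (a, b)).2 := h
    show (a + b) % 2 = 1 ∧ c = a + 1 ∧ d = b
    unfold J at h'
    simp only at h'
    omega
  · have h' : ((J (a, b)).1 + (J (a, b)).2) % 2 = 1 ∧ (J (c, d)).1 = (J (a, b)).1 ∧
      (J (c, d)).2 = (J (a, b)).2 - 1 := h
    show (a + b) % 2 = 0 ∧ c = a ∧ d = b + 1
    unfold J at h'
    simp only at h'
    omega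
  · have h' : ((J (a, b)).1 + (J (a, b)).2) % 2 = 0 ∧ (J (c, d)).1 = (J (a, b)).1 + 1 ∧
      (J (c, d)).2 = (J (a, b)).2 := h
    show (a + b) % 2 = 1 ∧ c = a - 1 ∧ d = b
    unfold J at h'
    simp only at h'
    omega
  · have h' : ((J (a, b)).1 + (J (a, b)).2) % 2 = 1 ∧ (J (c, d)).1 = (J (a, b)).1 + 1 ∧
      (J (c, d)).2 = (J (a, b)).2 := h
    show (a + b) % 2 = 0 ∧ c = a - 1 ∧ d = b
    unfold J at h'
    simp only at h'
    omega
  · have h' : ((J (a, b)).1 + (J (a, b)).2) % 2 = 0 ∧ (J (c, d)).1 = (J (a, b)).1 ∧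
      (J (c, d)).2 = (J (a, b)).2 + 1 := h
    show (a + b) % 2 = 1 ∧ c = a ∧ d = b - 1
    unfold J at h'
    simp only at h'
    omega

/-- the rotations by multiples of 60 degrees -/
theorem exists_rot' (i : Fin 6) : ∃ T : V → V, Function.Injective T ∧
    (∀ p q, Adj p q → Adj (T p) (T q)) ∧
    ∀ (j : Fin 6) (p q : V), Stp (j + i) (T p) (T q) → Stp j p q := by
  have hR : ∃ T : V → V, Function.Injective T ∧ (∀ p q, Adj p q → Adj (T p) (T q)) ∧
      ∀ (j : Fin 6) (p q : V), Stp (j + 2) (T p) (T q) → Stp j p q :=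
    ⟨R, R_inj, fun _ _ h => R_adj h, stp_R⟩
  have hJ : ∃ T : V → V, Function.Injective T ∧ (∀ p q, Adj p q → Adj (T p) (T q)) ∧
      ∀ (j : Fin 6) (p q : V), Stp (j + 3) (T p) (T q) → Stp j p q :=
    ⟨J, J_inj, fun _ _ h => J_adj h, stp_J⟩
  have hcomp : ∀ i j : Fin 6,
      (∃ T : V → V, Function.Injective T ∧ (∀ p q, Adj p q → Adj (T p) (T q)) ∧
        ∀ (k : Fin 6) (p q : V), Stp (k + i) (T p) (T q) → Stp k p q) →
      (∃ T : V → V, Function.Injective T ∧ (∀ p q, Adj p q → Adj (T p) (T q)) ∧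
        ∀ (k : Fin 6) (p q : V), Stp (k + j) (T p) (T q) → Stp k p q) →
      ∃ T : V → V, Function.Injective T ∧ (∀ p q, Adj p q → Adj (T p) (T q)) ∧
        ∀ (k : Fin 6) (p q : V), Stp (k + (i + j)) (T p) (T q) → Stp k p q := by
    rintro i j ⟨T, h1, h2, h3⟩ ⟨S, g1, g2, g3⟩
    refine ⟨S ∘ T, g1.comp h1, fun p q h => g2 _ _ (h2 _ _ h), fun k p q h => ?_⟩
    rw [Function.comp_apply, Function.comp_apply, ← add_assoc] at h
    exact h3 _ _ _ (g3 _ _ _ h)
  have h4 := hcomp 2 2 hR hR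
  have h5 := hcomp 2 3 hR hJ
  have h1 := hcomp _ _ h4 hJ
  have h0 := hcomp _ _ h4 hR
  fin_cases i
  · exact h0
  · exact h1
  · exact hR
  · exact hJ
  · exact h4
  · exact h5

/-- `v` can be joined to infinity outside `D` by a self-avoiding path without steps in the direction
`j` -/
def Access (j : Fin 6) (D : Finset V) (v : V) : Prop :=
  ∃ Γ : ℕ → V, Γ 0 = v ∧ Function.Injective Γ ∧
    (∀ i, Adj (Γ i) (Γ (i + 1)) ∧ ¬ Stp j (Γ i) (Γ (i + 1))) ∧ ∀ i, 1 ≤ i → Γ i ∉ D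

/-- **Core estimate** for accessible points. -/
theorem core_access (D : Finset V) {x y : V} (j : Fin 6) (hx : Access j D x) (hy : Access j D y)
    (G : Finset (List V)) (hG : ∀ l ∈ G, Saw D x y l) :
    ∑ l ∈ G, (mu0⁻¹) ^ (l.length - 1) ≤ 24 * D.card := by
  classical
  obtain ⟨T, h1, h2, h3⟩ := exists_rot' (3 - j)
  have hinj : Function.Injective (fun l : List V => l.map T) := List.map_injective_iff.mpr h1
  have hj0 : ∀ j : Fin 6, j + (3 - j) = 3 := by decide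
  have hj := hj0 j
  have hED : ∀ v, Access j D v → ∃ g E, ED (D.image T) (T v) g E := by
    rintro v ⟨Γ, e0, e1, e2, e3⟩
    have H : EP (fun i => T (Γ i)) := by
      refine ⟨h1.comp e1, fun i => h2 _ _ (e2 i).1, fun i hp e => ?_⟩
      apply (e2 i).2
      apply h3
      rw [hj]
      refine ⟨hp, ?_, ?_⟩
      · show (T (Γ (i + 1))).1 = (T (Γ i)).1 - 1
        rw [e]
      · show (T (Γ (i + 1))).2 = (T (Γ i)).2
        rw [e]
    refine ⟨T (Γ 1), ES (fun i => T (Γ i)), ?_, ?_, ⟨1, le_refl 1, rfl⟩, ?_, armBound_path H⟩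
    · have := H.adj 0
      simp only [e0] at this
      exact this
    · have := H.nl 0
      simp only [e0] at this
      exact this
    · rintro w hw ⟨i, hi, hwi⟩
      obtain ⟨u, hu, rfl⟩ := Finset.mem_image.mp hw
      have := h1 hwi
      rw [← this] at hu
      exact e3 i hi hu
  obtain ⟨gx, Ex, hEx⟩ := hED x hx
  obtain ⟨gy, Ey, hEy⟩ := hED y hy
  have key := core (D.image T) hEx hEy (G.image (fun l : List V => l.map T))
    (by
      intro l hl
      obtain ⟨m, hm, rfl⟩ := Finset.mem_image.mp hl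
      obtain ⟨g1, g2, g3, g4, g5⟩ := hG m hm
      refine ⟨?_, ?_, ?_, ?_, ?_⟩
      · rw [List.head?_map, g1]; rfl
      · rw [List.getLast?_map, g2]; rfl
      · exact (List.nodup_map_iff h1).mpr g3
      · rw [List.isChain_map]
        exact g4.imp (fun a b hab => h2 a b hab)
      · intro p hp
        obtain ⟨q, hq, rfl⟩ := List.mem_map.mp hp
        exact Finset.mem_image_of_mem T (g5 q hq))
  rw [Finset.sum_image (fun a _ b _ h => hinj h), Finset.card_image_of_injective _ h1] at key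
  simp only [List.length_map] at key
  exact key

end H131.V2
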